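import Pool.Agent.H654R5.PT.Stm
import Pool.Agent.H544R2.Univ

/-!
# CP3: the dead cells are computable
-/

namespace Pool.Agent.H654R5.PT.CP3

open Primrec Pool.Agent.NPC

theorem prim_eA : Primrec eA := by
  unfold eA
  refine option_bind Primrec.decode ?_
  refine option_bind (H544R2.prim_Vn.comp (Primrec.pair (snd.comp snd) (fst.comp snd))) ?_
  refine Primrec.ite (PrimrecPred.and (Primrec.nat_lt.comp (Primrec.nat_add.comp
    (list_length.comp (fst.comp (snd.comp fst))) (Primrec.const 66)) (list_length.comp snd))
    (Primrec.eq.comp (list_take.comp (Primrec.const 2) snd) (Primrec.const _))) ?_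
    (Primrec.const none)
  exact option_some.comp (list_drop.comp (Primrec.const 2) snd)

theorem prim_spoiled : Primrec (fun n => spoiled eA n) := by
  unfold spoiled
  exact listFilterMap list_range (prim_eA.comp snd).to₂

theorem prim_allStr : Primrec allStr := by
  have h : Primrec (fun n : ℕ => (Nat.rec [[]] (fun _ l => l.flatMap (fun s : List Bool =>
      [false :: s, true :: s])) n : List (List Bool))) := by
    refine Primrec.nat_rec₁ (f := fun _ (l : List (List Bool)) => l.flatMap (fun s : List Bool =>
      [false :: s, true :: s])) [[]] ?_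
    refine (list_flatMap (α := ℕ × List (List Bool)) (f := fun x => x.2)
      (g := fun _ (s : List Bool) => [false :: s, true :: s]) snd ?_).to₂
    exact list_cons.comp (list_cons.comp (Primrec.const false) snd)
      (list_cons.comp (list_cons.comp (Primrec.const true) snd) (Primrec.const []))
  refine h.of_eq fun n => ?_
  induction n with
  | zero => rfl
  | succ n ih => rw [allStr, ← ih]

theorem padic_eq (N : ℕ) : Nat.count (fun k => N % 2 ^ (k + 1) = 0) N = padicValNat 2 N := by
  rcases Nat.eq_zero_or_pos N with rfl | hN
  · simp
  · rw [Nat.count_eq_card_filter_range]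
    have hv : padicValNat 2 N ≤ N := by
      have h1 : 2 ^ padicValNat 2 N ∣ N := pow_padicValNat_dvd
      have h2 := Nat.le_of_dvd hN h1
      have h3 : padicValNat 2 N < 2 ^ padicValNat 2 N := Nat.lt_two_pow_self
      omega
    have h4 : (Finset.range N).filter (fun k => N % 2 ^ (k + 1) = 0) =
        Finset.range (padicValNat 2 N) := by
      ext k
      rw [Finset.mem_filter, Finset.mem_range, Finset.mem_range, ← Nat.dvd_iff_mod_eq_zero,
        padicValNat_dvd_iff_le hN.ne']
      omega
    rw [h4, Finset.card_range]

theorem prim_gN : Primrec gN := by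
  unfold gN
  refine H544R2.nat_pow.comp (Primrec.const 2) (Primrec.succ.comp ?_)
  refine (H544R2.prim_count (n := fun N : ℕ => N) (p := fun N k => N % 2 ^ (k + 1) = 0)
    Primrec.id ?_).of_eq padic_eq
  exact Primrec.eq.comp (Primrec.nat_mod.comp fst (H544R2.nat_pow.comp (Primrec.const 2)
    (Primrec.succ.comp snd))) (Primrec.const 0)

theorem prim_aa : Primrec aa :=
  Primrec.nat_add.comp (Primrec.nat_mul.comp (Primrec.const 6) Primrec.id) (Primrec.const 21)

theorem filter_length (l : List (List Bool)) (P : List Bool → Prop) [DecidablePred P] :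
    (l.filterMap (fun z => if P z then some z else none)).length =
      (l.filter (fun z => decide (P z))).length := by
  induction l with
  | nil => rfl
  | cons a l ih =>
    by_cases h : P a
    · rw [List.filterMap_cons, List.filter_cons]
      simp [h, ih]
    · rw [List.filterMap_cons, List.filter_cons]
      simp [h, ih]

theorem prim_deadB : Primrec (fun x : ℕ × (ℕ × List Bool) => deadB eA x.1 x.2) := by
  unfold deadB
  have hk : Primrec (fun x : ℕ × (ℕ × List Bool) => aa (gN x.2.1)) :=
    prim_aa.comp (prim_gN.comp (fst.comp snd))
  refine PrimrecPred.decide (Primrec.nat_lt.comp (H544R2.nat_pow.comp (Primrec.const 2) hk)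
    (Primrec.nat_mul.comp (Primrec.const 8) ?_))
  have h1 : Primrec (fun x : ℕ × (ℕ × List Bool) => ((allStr (aa (gN x.2.1))).filterMap
      (fun z => if x.2.2 ++ z ∈ spoiled eA x.1 then some z else none)).length) := by
    refine list_length.comp (listFilterMap (prim_allStr.comp hk) ?_)
    refine Primrec.ite ?_ (option_some.comp snd) (Primrec.const none)
    exact H544R2.prim_mem (list_append.comp (snd.comp (snd.comp fst)) snd)
      (prim_spoiled.comp (fst.comp fst))
  exact h1.of_eq fun x => filter_length _ _

theorem CP3_proof : S_CP3 := prim_deadB.to_comp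

end Pool.Agent.H654R5.PT.CP3
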